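import Pool.Agent.RN36.Sig

open Finset

namespace Pool.Agent.RN36

theorem h9_pt_re (h : ℝ) (i : ℕ × ℕ) : (pt h i).re = h * i.1 := by
  unfold pt
  simp

theorem h9_pt_im (h : ℝ) (i : ℕ × ℕ) : (pt h i).im = h * i.2 := by
  unfold pt
  simp

theorem h9_card_Icc (a L : ℝ) (_hL : 0 ≤ L) : ((Finset.Icc ⌊a⌋ ⌊a + L⌋).card : ℝ) ≤ L + 2 := by
  rw [Int.card_Icc]
  have h1 : ⌊a⌋ ≤ ⌊a + L⌋ := Int.floor_mono (by linarith)
  have h2 : ((⌊a + L⌋ + 1 - ⌊a⌋).toNat : ℝ) = ((⌊a + L⌋ + 1 - ⌊a⌋ : ℤ) : ℝ) := by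
    have : (((⌊a + L⌋ + 1 - ⌊a⌋).toNat : ℤ) : ℝ) = ((⌊a + L⌋ + 1 - ⌊a⌋ : ℤ) : ℝ) := by
      rw [Int.toNat_of_nonneg (by omega)]
    rw [← this]
    norm_cast
  rw [h2]
  push_cast
  have h3 := Int.floor_le (a + L)
  have h4 := Int.lt_floor_add_one a
  linarith

/-- ROW L3: lattice points in a rotated rectangle -/
theorem lattice_rect (u : ℂ) (hu : ‖u‖ = 1) (F : Finset (ℕ × ℕ)) (h : ℝ) (hh : 2 ≤ h)
    (a b L M : ℝ) (hL : 0 ≤ L) (hM : 0 ≤ M)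
    (H : ∀ i ∈ F, a ≤ Ac u (pt h i) ∧ Ac u (pt h i) ≤ a + L ∧
      b ≤ Bc u (pt h i) ∧ Bc u (pt h i) ≤ b + M) :
    (F.card : ℝ) ≤ (L + 2) * (M + 2) := by
  classical
  have hmap : ∀ i ∈ F, (⌊Ac u (pt h i)⌋, ⌊Bc u (pt h i)⌋) ∈ (Finset.Icc ⌊a⌋ ⌊a + L⌋ ×ˢ Finset.Icc ⌊b⌋ ⌊b + M⌋) := by
    intro i hi
    obtain ⟨h1, h2, h3, h4⟩ := H i hi
    rw [Finset.mem_product, Finset.mem_Icc, Finset.mem_Icc]
    exact ⟨⟨Int.floor_mono h1, Int.floor_mono h2⟩, Int.floor_mono h3, Int.floor_mono h4⟩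
  have husq : u.re ^ 2 + u.im ^ 2 = 1 := by
    have := Complex.sq_norm u
    rw [hu, Complex.normSq_apply] at this
    nlinarith
  have hinj : Set.InjOn (fun i : ℕ × ℕ => (⌊Ac u (pt h i)⌋, ⌊Bc u (pt h i)⌋)) (F : Set (ℕ × ℕ)) := by
    intro i _ j _ hij
    simp only [Prod.mk.injEq] at hij
    obtain ⟨e1, e2⟩ := hij
    have hA : |Ac u (pt h i) - Ac u (pt h j)| < 1 := Int.abs_sub_lt_one_of_floor_eq_floor e1
    have hB : |Bc u (pt h i) - Bc u (pt h j)| < 1 := Int.abs_sub_lt_one_of_floor_eq_floor e2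
    have hA2 : (Ac u (pt h i) - Ac u (pt h j)) ^ 2 < 1 := by
      rw [← sq_abs]; nlinarith [abs_nonneg (Ac u (pt h i) - Ac u (pt h j))]
    have hB2 : (Bc u (pt h i) - Bc u (pt h j)) ^ 2 < 1 := by
      rw [← sq_abs]; nlinarith [abs_nonneg (Bc u (pt h i) - Bc u (pt h j))]
    have hsum : (Ac u (pt h i) - Ac u (pt h j)) ^ 2 + (Bc u (pt h i) - Bc u (pt h j)) ^ 2 =
        h ^ 2 * (((i.1 : ℝ) - j.1) ^ 2 + ((i.2 : ℝ) - j.2) ^ 2) := by
      unfold Ac Bc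
      rw [Complex.mul_re, Complex.mul_re, Complex.mul_im, Complex.mul_im, Complex.conj_re, Complex.conj_im,
        h9_pt_re, h9_pt_im, h9_pt_re, h9_pt_im]
      linear_combination (h ^ 2 * (((i.1 : ℝ) - j.1) ^ 2 + ((i.2 : ℝ) - j.2) ^ 2)) * husq
    have hlt : h ^ 2 * (((i.1 : ℝ) - j.1) ^ 2 + ((i.2 : ℝ) - j.2) ^ 2) < 2 := by
      rw [← hsum]; linarith
    by_contra hne
    have hge : (1 : ℝ) ≤ ((i.1 : ℝ) - j.1) ^ 2 + ((i.2 : ℝ) - j.2) ^ 2 := by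
      have hz : (1 : ℤ) ≤ ((i.1 : ℤ) - j.1) ^ 2 + ((i.2 : ℤ) - j.2) ^ 2 := by
        by_contra hlt'
        have h0 : ((i.1 : ℤ) - j.1) ^ 2 + ((i.2 : ℤ) - j.2) ^ 2 = 0 := by
          have := sq_nonneg ((i.1 : ℤ) - j.1)
          have := sq_nonneg ((i.2 : ℤ) - j.2)
          omega
        have h1 : ((i.1 : ℤ) - j.1) ^ 2 = 0 := by
          have := sq_nonneg ((i.1 : ℤ) - j.1)
          have := sq_nonneg ((i.2 : ℤ) - j.2)
          omega
        have h2 : ((i.2 : ℤ) - j.2) ^ 2 = 0 := by omega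
        have h3 : (i.1 : ℤ) - j.1 = 0 := by simpa using h1
        have h4 : (i.2 : ℤ) - j.2 = 0 := by simpa using h2
        exact hne (Prod.ext (by omega) (by omega))
      exact_mod_cast hz
    nlinarith [mul_le_mul (show (4 : ℝ) ≤ h ^ 2 by nlinarith) hge (by norm_num) (by positivity)]
  have hcard := Finset.card_le_card_of_injOn _ hmap hinj
  rw [Finset.card_product] at hcard
  have h1 := h9_card_Icc a L hL
  have h2 := h9_card_Icc b M hM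
  calc (F.card : ℝ) ≤ ((Finset.Icc ⌊a⌋ ⌊a + L⌋).card : ℝ) * ((Finset.Icc ⌊b⌋ ⌊b + M⌋).card : ℝ) := by
        exact_mod_cast hcard
    _ ≤ (L + 2) * (M + 2) := mul_le_mul h1 h2 (by positivity) (by linarith)

/-- ROW L4a -/
theorem dir_norm (m j : ℕ) : ‖dir m j‖ = 1 := by
  unfold dir
  have h1 : (1 - (((j : ℝ) / (m : ℝ) : ℝ) : ℂ) * Complex.I) =
      (starRingEnd ℂ) (1 + (((j : ℝ) / (m : ℝ) : ℝ) : ℂ) * Complex.I) := by
    rw [map_add, map_one, map_mul, Complex.conj_ofReal, Complex.conj_I]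
    ring
  rw [norm_div, h1, Complex.norm_conj, div_self]
  intro h2
  rw [norm_eq_zero] at h2
  have h3 := congrArg Complex.re h2
  simp at h3

theorem h9_den (t : ℝ) : ‖(1 - (t : ℂ) * Complex.I)‖ ^ 2 = 1 + t ^ 2 := by
  rw [Complex.sq_norm, Complex.normSq_apply]
  simp
  ring

theorem h9_dist (s t : ℝ) (hs0 : 0 ≤ s) (hs : s ≤ 1) (ht0 : 0 ≤ t) (ht : t ≤ 1) :
    |s - t| ≤ ‖(1 + (s : ℂ) * Complex.I) / (1 - (s : ℂ) * Complex.I) -
      (1 + (t : ℂ) * Complex.I) / (1 - (t : ℂ) * Complex.I)‖ := by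
  have hs1 : (1 - (s : ℂ) * Complex.I) ≠ 0 := by
    intro h
    have := congrArg Complex.re h
    simp at this
  have ht1 : (1 - (t : ℂ) * Complex.I) ≠ 0 := by
    intro h
    have := congrArg Complex.re h
    simp at this
  have e : (1 + (s : ℂ) * Complex.I) / (1 - (s : ℂ) * Complex.I) -
      (1 + (t : ℂ) * Complex.I) / (1 - (t : ℂ) * Complex.I) =
      (2 * ((s - t : ℝ) : ℂ) * Complex.I) / ((1 - (s : ℂ) * Complex.I) * (1 - (t : ℂ) * Complex.I)) := by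
    rw [div_sub_div _ _ hs1 ht1]
    congr 1
    push_cast
    ring
  rw [e, norm_div, norm_mul, norm_mul, norm_mul, Complex.norm_I, Complex.norm_real, Real.norm_eq_abs, mul_one]
  have hA : 0 < ‖(1 - (s : ℂ) * Complex.I)‖ := norm_pos_iff.2 hs1
  have hB : 0 < ‖(1 - (t : ℂ) * Complex.I)‖ := norm_pos_iff.2 ht1
  have hA2 := h9_den s
  have hB2 := h9_den t
  have hprod : ‖(1 - (s : ℂ) * Complex.I)‖ * ‖(1 - (t : ℂ) * Complex.I)‖ ≤ 2 := by
    have h1 : ‖(1 - (s : ℂ) * Complex.I)‖ ^ 2 ≤ 2 := by rw [hA2]; nlinarith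
    have h2 : ‖(1 - (t : ℂ) * Complex.I)‖ ^ 2 ≤ 2 := by rw [hB2]; nlinarith
    nlinarith [sq_nonneg (‖(1 - (s : ℂ) * Complex.I)‖ - ‖(1 - (t : ℂ) * Complex.I)‖)]
  rw [le_div_iff₀ (mul_pos hA hB)]
  have h2 : ‖(2 : ℂ)‖ = 2 := by norm_num
  rw [h2]
  nlinarith [abs_nonneg (s - t)]

/-- ROW L4b -/
theorem dir_count (m : ℕ) (hm : 0 < m) (v : ℂ) (hv : ‖v‖ ≤ 1) (η : ℝ) (hη : 0 ≤ η)
    (F : Finset ℕ) (hF : ∀ j ∈ F, j < m ∧ 1 - Ac (dir m j) v ≤ η) :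
    (F.card : ℝ) ≤ 2 * Real.sqrt (2 * η) * m + 1 := by
  have hm' : (0 : ℝ) < m := by exact_mod_cast hm
  rcases F.eq_empty_or_nonempty with rfl | hne
  · have : 0 ≤ 2 * Real.sqrt (2 * η) * m := by positivity
    simp only [Finset.card_empty, Nat.cast_zero]
    linarith
  -- every direction is near `v`
  have hnear : ∀ j ∈ F, ‖v - dir m j‖ ≤ Real.sqrt (2 * η) := by
    intro j hj
    have h1 := (hF j hj).2
    apply Real.le_sqrt_of_sq_le
    have h2 : ‖v - dir m j‖ ^ 2 = ‖v‖ ^ 2 + ‖dir m j‖ ^ 2 - 2 * Ac (dir m j) v := by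
      rw [Complex.sq_norm, Complex.sq_norm, Complex.sq_norm, Complex.normSq_apply, Complex.normSq_apply,
        Complex.normSq_apply]
      unfold Ac
      rw [Complex.mul_re, Complex.conj_re, Complex.conj_im, Complex.sub_re, Complex.sub_im]
      ring
    rw [h2, dir_norm]
    nlinarith [norm_nonneg v]
  have hdist : ∀ j ∈ F, ∀ k ∈ F, ((j : ℝ) - k) ≤ 2 * Real.sqrt (2 * η) * m := by
    intro j hj k hk
    have h1 : |(j : ℝ) / m - (k : ℝ) / m| ≤ ‖dir m j - dir m k‖ := by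
      have hj1 : (j : ℝ) ≤ m := by exact_mod_cast (hF j hj).1.le
      have hk1 : (k : ℝ) ≤ m := by exact_mod_cast (hF k hk).1.le
      exact h9_dist _ _ (by positivity) ((div_le_one hm').2 hj1) (by positivity) ((div_le_one hm').2 hk1)
    have h2 : ‖dir m j - dir m k‖ ≤ 2 * Real.sqrt (2 * η) := by
      have e : dir m j - dir m k = (v - dir m k) - (v - dir m j) := by ring
      rw [e]
      refine (norm_sub_le _ _).trans ?_
      have := hnear j hj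
      have := hnear k hk
      linarith
    have h3 : (j : ℝ) / m - (k : ℝ) / m ≤ 2 * Real.sqrt (2 * η) := (le_abs_self _).trans (h1.trans h2)
    rw [← sub_div, div_le_iff₀ hm'] at h3
    exact h3
  obtain ⟨D, hD⟩ : ∃ D : ℝ, D = 2 * Real.sqrt (2 * η) * m := ⟨_, rfl⟩
  have hD0 : 0 ≤ D := by rw [hD]; positivity
  rw [← hD] at hdist ⊢
  have hsub : F ⊆ Finset.Icc (F.min' hne) (F.min' hne + ⌊D⌋₊) := by
    intro j hj
    rw [Finset.mem_Icc]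
    refine ⟨Finset.min'_le F j hj, ?_⟩
    have h1 := hdist j hj _ (Finset.min'_mem F hne)
    have h2 : F.min' hne ≤ j := Finset.min'_le F j hj
    have h3 : ((j - F.min' hne : ℕ) : ℝ) ≤ D := by
      rw [Nat.cast_sub h2]
      exact h1
    have h4 := Nat.le_floor h3
    omega
  have h1 := Finset.card_le_card hsub
  rw [Nat.card_Icc] at h1
  have h2 : F.card ≤ ⌊D⌋₊ + 1 := by omega
  calc (F.card : ℝ) ≤ (⌊D⌋₊ : ℝ) + 1 := by exact_mod_cast h2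
    _ ≤ D + 1 := by
        have := Nat.floor_le hD0
        linarith

end Pool.Agent.RN36
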