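import Pool.Agent.RN36.Walk2
import Pool.Agent.RN36.Rows

open Finset

namespace Pool.Agent.RN36

variable {V : Type*} (G : SimpleGraph V) (f : V → ℂ)

theorem anc_bound2 (C : ℝ) (hC : 0 ≤ C)
    (u : ℂ) (hu : ‖u‖ = 1) (t : V) (x : ℕ × ℕ → V) (I : Finset (ℕ × ℕ)) (r : ℕ)
    (hx : ∀ i ∈ I, ‖f (x i) - pt 2 i‖ ≤ C)
    (hd : ∀ i ∈ I, (r : ℝ) - 2 * C - 1 ≤ Ac u (f (pos G t r (x i)) - f (x i)))
    (hnorm : ∀ i ∈ I, ‖f (pos G t r (x i)) - f (x i)‖ ≤ r + C)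
    (y : V) (F : Finset (ℕ × ℕ)) (hF : ∀ i ∈ F, i ∈ I ∧ pos G t r (x i) = y) :
    (F.card : ℝ) ≤ (5 * C + 3) * (2 * Real.sqrt (2 * (3 * C + 1) * (r + C)) + 2 * C + 2) := by
  set S := Real.sqrt (2 * (3 * C + 1) * (r + C)) with hS
  have hS0 : 0 ≤ S := Real.sqrt_nonneg _
  have key : ∀ i ∈ F, Ac u (f y) - r - 2 * C ≤ Ac u (pt 2 i) ∧
      Ac u (pt 2 i) ≤ Ac u (f y) - r - 2 * C + (5 * C + 1) ∧
      Bc u (f y) - S - C ≤ Bc u (pt 2 i) ∧ Bc u (pt 2 i) ≤ Bc u (f y) - S - C + (2 * S + 2 * C) := by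
    intro i hi
    obtain ⟨hiI, hpos⟩ := hF i hi
    have h1 := hx i hiI
    have h2 := hd i hiI
    have h3 := hnorm i hiI
    rw [hpos] at h2 h3
    have h4 := abs_Ac_le u (f y - f (x i)) hu
    have h5 := le_abs_self (Ac u (f y - f (x i)))
    have h6 := sq_sum u (f y - f (x i)) hu
    have hr0 : (0:ℝ) ≤ r := Nat.cast_nonneg r
    have h7 : Bc u (f y - f (x i)) ^ 2 ≤ 2 * (3 * C + 1) * (r + C) := by
      have h8 : ‖f y - f (x i)‖ ^ 2 ≤ ((r : ℝ) + C) ^ 2 := by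
        apply pow_le_pow_left₀ (norm_nonneg _) h3
      have h9 : (r : ℝ) + C - Ac u (f y - f (x i)) ≤ 3 * C + 1 := by linarith
      have h10 : 0 ≤ (r : ℝ) + C - Ac u (f y - f (x i)) := by linarith
      have h11 : (r : ℝ) + C + Ac u (f y - f (x i)) ≤ 2 * (r + C) := by linarith
      nlinarith
    have h8 : |Bc u (f y - f (x i))| ≤ S := by
      rw [hS]
      exact Real.abs_le_sqrt h7
    have h9 := abs_le.mp h8
    have h10 := abs_le.mp (le_trans (abs_Ac_le u (f (x i) - pt 2 i) hu) h1)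
    have h11 := abs_le.mp (le_trans (abs_Bc_le u (f (x i) - pt 2 i) hu) h1)
    have h12 : Ac u (f y - f (x i)) ≤ r + C := by linarith
    rw [Ac_sub] at h10 h2 h12
    rw [Bc_sub] at h11 h9
    refine ⟨by linarith [h10.1, h10.2], by linarith [h10.1, h10.2], by linarith [h9.1, h9.2, h11.1, h11.2], by linarith [h9.1, h9.2, h11.1, h11.2]⟩
  have := lattice_rect u hu F 2 (le_refl 2) (Ac u (f y) - r - 2 * C) (Bc u (f y) - S - C)
    (5 * C + 1) (2 * S + 2 * C) (by linarith) (by linarith) key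
  calc (F.card : ℝ) ≤ (5 * C + 1 + 2) * (2 * S + 2 * C + 2) := this
    _ = (5 * C + 3) * (2 * S + 2 * C + 2) := by ring

theorem dir_bound2 (hc : G.Connected) (Δ : ℕ)
    (hΔ : ∀ v, ∃ s : Finset V, s.card ≤ Δ ∧ ∀ w, G.Adj v w → w ∈ s)
    (L : ℕ) (m : ℕ) (hm : 0 < m) (t : ℕ → V) (y : V) (η : ℝ) (hη : 0 ≤ η) (F : Finset ℕ)
    (hF : ∀ j ∈ F, j < m ∧ 1 ≤ ‖f (pos G (t j) L y) - f y‖ ∧ mc G f L (dir m j) (t j) y ≤ η) :
    (F.card : ℝ) ≤ (Δ + 1) ^ L * (2 * Real.sqrt (2 * η) * m + 1) := by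
  classical
  obtain ⟨s, hs, hs2⟩ := ball_bound G Δ hΔ hc L y
  have hmaps : ∀ j ∈ F, pos G (t j) L y ∈ s := by
    intro j _
    exact hs2 _ (dist_pos_le G hc (t j) y L)
  have h1 : F.card = ∑ z ∈ s, (F.filter (fun j => pos G (t j) L y = z)).card :=
    Finset.card_eq_sum_card_fiberwise hmaps
  have hpos : 0 ≤ 2 * Real.sqrt (2 * η) * m + 1 := by positivity
  have h2 : ∀ z ∈ s, ((F.filter (fun j => pos G (t j) L y = z)).card : ℝ)
      ≤ 2 * Real.sqrt (2 * η) * m + 1 := by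
    intro z _
    by_cases hne : (F.filter (fun j => pos G (t j) L y = z)).Nonempty
    · obtain ⟨j0, hj0⟩ := hne
      rw [Finset.mem_filter] at hj0
      have hz : 1 ≤ ‖f z - f y‖ := by
        have := (hF j0 hj0.1).2.1
        rw [hj0.2] at this
        exact this
      set ν := ‖f z - f y‖ with hν
      have hν0 : 0 < ν := by linarith
      apply dir_count m hm (((ν⁻¹ : ℝ) : ℂ) * (f z - f y)) _ η hη
      · intro j hj
        rw [Finset.mem_filter] at hj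
        obtain ⟨h3, h4, h5⟩ := hF j hj.1
        refine ⟨h3, ?_⟩
        unfold mc at h5
        rw [hj.2] at h5
        have h6 : Ac (dir m j) (((ν⁻¹ : ℝ) : ℂ) * (f z - f y)) = ν⁻¹ * Ac (dir m j) (f z - f y) := by
          simp only [Ac]
          rw [mul_assoc, Complex.re_ofReal_mul]
        rw [h6]
        have h7 : ν⁻¹ ≤ 1 := inv_le_one_of_one_le₀ hz
        have h8 : 0 ≤ ν - Ac (dir m j) (f z - f y) := by
          have := abs_Ac_le (dir m j) (f z - f y) (dir_norm m j)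
          have := le_abs_self (Ac (dir m j) (f z - f y))
          linarith
        calc 1 - ν⁻¹ * Ac (dir m j) (f z - f y) = ν⁻¹ * (ν - Ac (dir m j) (f z - f y)) := by
              rw [mul_sub, inv_mul_cancel₀ hν0.ne']
          _ ≤ 1 * (ν - Ac (dir m j) (f z - f y)) := mul_le_mul_of_nonneg_right h7 h8
          _ ≤ η := by linarith
      · rw [norm_mul, Complex.norm_real, Real.norm_eq_abs, abs_of_pos (inv_pos.mpr hν0), ← hν,
          inv_mul_cancel₀ hν0.ne']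
    · rw [Finset.not_nonempty_iff_eq_empty] at hne
      rw [hne]
      simpa using hpos
  rw [h1]
  push_cast
  calc ∑ z ∈ s, ((F.filter (fun j => pos G (t j) L y = z)).card : ℝ)
      ≤ ∑ z ∈ s, (2 * Real.sqrt (2 * η) * m + 1) := Finset.sum_le_sum h2
    _ = s.card * (2 * Real.sqrt (2 * η) * m + 1) := by rw [Finset.sum_const, nsmul_eq_mul]
    _ ≤ (Δ + 1) ^ L * (2 * Real.sqrt (2 * η) * m + 1) := by
        apply mul_le_mul_of_nonneg_right _ hpos
        exact_mod_cast hs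

theorem bad_bound2 (hc : G.Connected) (Δ : ℕ)
    (hΔ : ∀ v, ∃ s : Finset V, s.card ≤ Δ ∧ ∀ w, G.Adj v w → w ∈ s) (C : ℝ) (hC : 0 ≤ C)
    (L : ℕ) (m : ℕ) (hm : 0 < m) (t : ℕ → V) (x : ℕ × ℕ → V) (I : Finset (ℕ × ℕ)) (r : ℕ)
    (hx : ∀ i ∈ I, ‖f (x i) - pt 2 i‖ ≤ C)
    (hd : ∀ j < m, ∀ i ∈ I, (r : ℝ) - 2 * C - 1 ≤ Ac (dir m j) (f (pos G (t j) r (x i)) - f (x i)))
    (hnorm : ∀ j < m, ∀ i ∈ I, ‖f (pos G (t j) r (x i)) - f (x i)‖ ≤ r + C)
    (hone : ∀ j < m, ∀ i ∈ I, 1 ≤ ‖f (pos G (t j) L (pos G (t j) r (x i))) - f (pos G (t j) r (x i))‖)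
    (Y : Finset V) (hY : ∀ j < m, ∀ i ∈ I, pos G (t j) r (x i) ∈ Y) (η : ℝ) (hη : 0 ≤ η) :
    ∑ j ∈ range m,
      ((I.filter (fun i => mc G f L (dir m j) (t j) (pos G (t j) r (x i)) ≤ η)).card : ℝ)
      ≤ Y.card * (((5 * C + 3) * (2 * Real.sqrt (2 * (3 * C + 1) * (r + C)) + 2 * C + 2)) *
        ((Δ + 1) ^ L * (2 * Real.sqrt (2 * η) * m + 1))) := by
  classical
  set B := (5 * C + 3) * (2 * Real.sqrt (2 * (3 * C + 1) * (r + C)) + 2 * C + 2) with hB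
  have hB0 : 0 ≤ B := by positivity
  have step1 : ∀ j ∈ range m,
      ((I.filter (fun i => mc G f L (dir m j) (t j) (pos G (t j) r (x i)) ≤ η)).card : ℝ)
      ≤ ∑ y ∈ Y, (if 1 ≤ ‖f (pos G (t j) L y) - f y‖ ∧ mc G f L (dir m j) (t j) y ≤ η
          then B else 0) := by
    intro j hj
    rw [Finset.mem_range] at hj
    set Fj := I.filter (fun i => mc G f L (dir m j) (t j) (pos G (t j) r (x i)) ≤ η) with hFj
    have hmaps : ∀ i ∈ Fj, pos G (t j) r (x i) ∈ Y := by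
      intro i hi
      rw [hFj, Finset.mem_filter] at hi
      exact hY j hj i hi.1
    have h1 : Fj.card = ∑ y ∈ Y, (Fj.filter (fun i => pos G (t j) r (x i) = y)).card :=
      Finset.card_eq_sum_card_fiberwise hmaps
    rw [h1]
    push_cast
    apply Finset.sum_le_sum
    intro y _
    split_ifs with hcc
    · apply anc_bound2 G f C hC (dir m j) (dir_norm m j) (t j) x I r hx
        (hd j hj) (hnorm j hj) y
      intro i hi
      rw [Finset.mem_filter, hFj, Finset.mem_filter] at hi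
      exact ⟨hi.1.1, hi.2⟩
    · have : Fj.filter (fun i => pos G (t j) r (x i) = y) = ∅ := by
        apply Finset.filter_eq_empty_iff.mpr
        intro i hi h
        rw [hFj, Finset.mem_filter] at hi
        have h9 := hone j hj i hi.1
        rw [h] at hi h9
        exact hcc ⟨h9, hi.2⟩
      rw [this]
      simp
  calc ∑ j ∈ range m,
      ((I.filter (fun i => mc G f L (dir m j) (t j) (pos G (t j) r (x i)) ≤ η)).card : ℝ)
      ≤ ∑ j ∈ range m, ∑ y ∈ Y, (if 1 ≤ ‖f (pos G (t j) L y) - f y‖ ∧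
          mc G f L (dir m j) (t j) y ≤ η then B else 0) :=
        Finset.sum_le_sum step1
    _ = ∑ y ∈ Y, ∑ j ∈ range m, (if 1 ≤ ‖f (pos G (t j) L y) - f y‖ ∧
          mc G f L (dir m j) (t j) y ≤ η then B else 0) :=
        Finset.sum_comm
    _ ≤ ∑ y ∈ Y, B * ((Δ + 1) ^ L * (2 * Real.sqrt (2 * η) * m + 1)) := by
        apply Finset.sum_le_sum
        intro y _
        rw [← Finset.sum_filter, Finset.sum_const, nsmul_eq_mul, mul_comm]
        apply mul_le_mul_of_nonneg_left _ hB0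
        apply dir_bound2 G f hc Δ hΔ L m hm t y η hη
        intro j hj
        rw [Finset.mem_filter, Finset.mem_range] at hj
        exact hj
    _ = Y.card * (B * ((Δ + 1) ^ L * (2 * Real.sqrt (2 * η) * m + 1))) := by
        rw [Finset.sum_const, nsmul_eq_mul]

theorem pos_square2 (C : ℝ) (hC : 0 ≤ C)
    (t : V) (x : V) (n r : ℕ) (hr : r ≤ n) (i : ℕ × ℕ) (hi : i.1 < n ∧ i.2 < n)
    (hx : ‖f x - pt 2 i‖ ≤ C) (h1 : ‖f (pos G t r x) - f x‖ ≤ r + C) :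
    (-(2 * C + n) ≤ (f (pos G t r x)).re ∧ (f (pos G t r x)).re ≤ -(2 * C + n) + (4 * n + 4 * C)) ∧
    (-(2 * C + n) ≤ (f (pos G t r x)).im ∧ (f (pos G t r x)).im ≤ -(2 * C + n) + (4 * n + 4 * C)) := by
  have h2 : (r : ℝ) ≤ n := by exact_mod_cast hr
  have h3 : ‖f (pos G t r x) - pt 2 i‖ ≤ 2 * C + n := by
    calc ‖f (pos G t r x) - pt 2 i‖ = ‖(f (pos G t r x) - f x) + (f x - pt 2 i)‖ := by
          congr 1; ring
      _ ≤ ‖f (pos G t r x) - f x‖ + ‖f x - pt 2 i‖ := norm_add_le _ _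
      _ ≤ 2 * C + n := by linarith
  have h4 := abs_le.mp (le_trans (Complex.abs_re_le_norm (f (pos G t r x) - pt 2 i)) h3)
  have h5 := abs_le.mp (le_trans (Complex.abs_im_le_norm (f (pos G t r x) - pt 2 i)) h3)
  have h6 : (pt 2 i).re = 2 * (i.1 : ℝ) := by simp [pt]
  have h7 : (pt 2 i).im = 2 * (i.2 : ℝ) := by simp [pt]
  rw [Complex.sub_re, h6] at h4
  rw [Complex.sub_im, h7] at h5
  have h8 : (i.1 : ℝ) ≤ n := by exact_mod_cast hi.1.le
  have h9 : (i.2 : ℝ) ≤ n := by exact_mod_cast hi.2.le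
  have h10 : (0 : ℝ) ≤ i.1 := Nat.cast_nonneg _
  have h11 : (0 : ℝ) ≤ i.2 := Nat.cast_nonneg _
  refine ⟨⟨by linarith [h4.1], by linarith [h4.2]⟩, ⟨by linarith [h5.1], by linarith [h5.2]⟩⟩

end Pool.Agent.RN36
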