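import Pool.Agent.RN36.Sig

open Finset

namespace Pool.Agent.RN36

/-- ROW L1 -/
theorem ball_bound {V : Type*} (G : SimpleGraph V) (Δ : ℕ)
    (hΔ : ∀ v, ∃ s : Finset V, s.card ≤ Δ ∧ ∀ w, G.Adj v w → w ∈ s) (hc : G.Connected) (ρ : ℕ) :
    ∀ x, ∃ s : Finset V, s.card ≤ (Δ + 1) ^ ρ ∧ ∀ y, G.dist x y ≤ ρ → y ∈ s := by
  classical
  intro x
  choose N hN1 hN2 using hΔ
  induction ρ with
  | zero =>
    refine ⟨{x}, by simp, fun y hy => ?_⟩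
    have h0 : G.dist x y = 0 := by omega
    rw [Finset.mem_singleton]
    exact ((hc.dist_eq_zero_iff).1 h0).symm
  | succ ρ ih =>
    obtain ⟨s, hs1, hs2⟩ := ih
    refine ⟨s ∪ s.biUnion N, ?_, fun y hy => ?_⟩
    · calc (s ∪ s.biUnion N).card ≤ s.card + (s.biUnion N).card := Finset.card_union_le _ _
        _ ≤ s.card + s.card * Δ :=
          Nat.add_le_add_left (Finset.card_biUnion_le_card_mul s N Δ (fun v _ => hN1 v)) _
        _ = s.card * (Δ + 1) := by ring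
        _ ≤ (Δ + 1) ^ ρ * (Δ + 1) := Nat.mul_le_mul_right _ hs1
        _ = (Δ + 1) ^ (ρ + 1) := (pow_succ _ _).symm
    · obtain ⟨p, hp⟩ := hc.exists_walk_length_eq_dist y x
      cases p with
      | nil => exact mem_union_left _ (hs2 _ (by simp))
      | cons h q =>
        rename_i z
        have h1 : G.dist x z ≤ ρ := by
          have h2 := SimpleGraph.dist_le q
          rw [SimpleGraph.Walk.length_cons] at hp
          rw [SimpleGraph.dist_comm] at hy h2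
          rw [SimpleGraph.dist_comm] at hp
          rw [SimpleGraph.dist_comm] at hy
          omega
        exact mem_union_right _ (mem_biUnion.2 ⟨z, hs2 z h1, hN2 z y h.symm⟩)

theorem icc_card (a L : ℝ) (hL : 0 ≤ L) : (((Finset.Icc ⌊a⌋ ⌊a + L⌋).card : ℕ) : ℝ) ≤ L + 2 := by
  rw [Int.card_Icc]
  have h1 : ⌊a⌋ ≤ ⌊a + L⌋ := Int.floor_le_floor (by linarith)
  have h2 : (((⌊a + L⌋ + 1 - ⌊a⌋).toNat : ℕ) : ℤ) = ⌊a + L⌋ + 1 - ⌊a⌋ := Int.toNat_of_nonneg (by omega)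
  have h3 : (((⌊a + L⌋ + 1 - ⌊a⌋).toNat : ℕ) : ℝ) = ((⌊a + L⌋ + 1 - ⌊a⌋ : ℤ) : ℝ) := by
    rw [← h2]
    push_cast
    rfl
  rw [h3]
  push_cast
  have h4 := Int.floor_le (a + L)
  have h5 := Int.lt_floor_add_one a
  linarith

/-- ROW L2 (uses L1): vertices in a square of side L -/
theorem square_bound {V : Type*} (G : SimpleGraph V) (Δ : ℕ)
    (hΔ : ∀ v, ∃ s : Finset V, s.card ≤ Δ ∧ ∀ w, G.Adj v w → w ∈ s) (hc : G.Connected)
    (f : V → ℂ) (C : ℝ) (hup : ∀ x y, (G.dist x y : ℝ) ≤ ‖f x - f y‖ + C) :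
    ∃ K : ℝ, 1 ≤ K ∧ ∀ (F : Finset V) (a b L : ℝ), 1 ≤ L →
      (∀ y ∈ F, a ≤ (f y).re ∧ (f y).re ≤ a + L ∧ b ≤ (f y).im ∧ (f y).im ≤ b + L) →
      (F.card : ℝ) ≤ K * L ^ 2 := by
  classical
  obtain ⟨ρ, hρ⟩ : ∃ ρ : ℕ, ρ = ⌈2 + C⌉₊ := ⟨_, rfl⟩
  have hball := ball_bound G Δ hΔ hc ρ
  have hpow : (1 : ℝ) ≤ ((Δ : ℝ) + 1) ^ ρ := one_le_pow₀ (by
    have : (0 : ℝ) ≤ (Δ : ℝ) := Nat.cast_nonneg _
    linarith)
  refine ⟨9 * ((Δ : ℝ) + 1) ^ ρ, by linarith, ?_⟩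
  intro F a b L hL hF
  obtain ⟨g, hg⟩ : ∃ g : V → ℤ × ℤ, g = fun y => (⌊(f y).re⌋, ⌊(f y).im⌋) := ⟨_, rfl⟩
  have h1 : F.card ≤ (Δ + 1) ^ ρ * (F.image g).card := by
    refine Finset.card_le_mul_card_image F _ ?_
    intro c hcm
    obtain ⟨x, _, hxc⟩ := Finset.mem_image.1 hcm
    obtain ⟨s, hs1, hs2⟩ := hball x
    refine le_trans (Finset.card_le_card ?_) hs1
    intro y hy
    rw [Finset.mem_filter] at hy
    refine hs2 y ?_
    have h2 : g x = g y := hxc.trans hy.2.symm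
    rw [hg] at h2
    have h3 : ⌊(f x).re⌋ = ⌊(f y).re⌋ := congrArg Prod.fst h2
    have h4 : ⌊(f x).im⌋ = ⌊(f y).im⌋ := congrArg Prod.snd h2
    have h5 : |(f x - f y).re| ≤ 1 := by
      rw [Complex.sub_re]
      exact (Int.abs_sub_lt_one_of_floor_eq_floor h3).le
    have h6 : |(f x - f y).im| ≤ 1 := by
      rw [Complex.sub_im]
      exact (Int.abs_sub_lt_one_of_floor_eq_floor h4).le
    have h7 : ‖f x - f y‖ ≤ 2 := by
      have := Complex.norm_le_abs_re_add_abs_im (f x - f y)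
      linarith
    have h8 : ((G.dist x y : ℕ) : ℝ) ≤ (ρ : ℝ) := by
      have h9 := hup x y
      have h10 := Nat.le_ceil (2 + C)
      rw [← hρ] at h10
      linarith
    exact_mod_cast h8
  have h2 : (F.image g).card ≤ (Finset.Icc ⌊a⌋ ⌊a + L⌋ ×ˢ Finset.Icc ⌊b⌋ ⌊b + L⌋).card := by
    refine Finset.card_le_card ?_
    intro c hcm
    obtain ⟨y, hy, rfl⟩ := Finset.mem_image.1 hcm
    obtain ⟨e1, e2, e3, e4⟩ := hF y hy
    rw [hg]
    simp only [Finset.mem_product, Finset.mem_Icc]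
    exact ⟨⟨Int.floor_le_floor e1, Int.floor_le_floor e2⟩, Int.floor_le_floor e3, Int.floor_le_floor e4⟩
  rw [Finset.card_product] at h2
  have h3 := icc_card a L (by linarith)
  have h4 := icc_card b L (by linarith)
  have h5 : ((F.image g).card : ℝ) ≤ (L + 2) * (L + 2) := by
    calc ((F.image g).card : ℝ) ≤
        (((Finset.Icc ⌊a⌋ ⌊a + L⌋).card * (Finset.Icc ⌊b⌋ ⌊b + L⌋).card : ℕ) : ℝ) := by exact_mod_cast h2
      _ = ((Finset.Icc ⌊a⌋ ⌊a + L⌋).card : ℝ) * ((Finset.Icc ⌊b⌋ ⌊b + L⌋).card : ℝ) := by push_cast; rfl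
      _ ≤ (L + 2) * (L + 2) := by
        refine mul_le_mul h3 h4 (Nat.cast_nonneg _) (by linarith)
  have h6 : (L + 2) * (L + 2) ≤ 9 * L ^ 2 := by nlinarith
  calc (F.card : ℝ) ≤ (((Δ + 1) ^ ρ * (F.image g).card : ℕ) : ℝ) := by exact_mod_cast h1
    _ = ((Δ : ℝ) + 1) ^ ρ * ((F.image g).card : ℝ) := by push_cast; rfl
    _ ≤ ((Δ : ℝ) + 1) ^ ρ * (9 * L ^ 2) := by
      refine mul_le_mul_of_nonneg_left (h5.trans h6) (by linarith)
    _ = 9 * ((Δ : ℝ) + 1) ^ ρ * L ^ 2 := by ring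

end Pool.Agent.RN36
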