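import Pool.Agent.RN36.Anc2

open Finset

namespace Pool.Agent.RN36

variable {V : Type*} (G : SimpleGraph V) (f : V → ℂ)

theorem norm_pt2 (n : ℕ) (i : ℕ × ℕ) (hi : i.1 < n ∧ i.2 < n) : ‖pt 2 i‖ ≤ 4 * n := by
  have h8 : (i.1 : ℝ) ≤ n := by exact_mod_cast hi.1.le
  have h9 : (i.2 : ℝ) ≤ n := by exact_mod_cast hi.2.le
  unfold pt
  calc ‖((2 : ℝ) : ℂ) * ((i.1 : ℂ) + (i.2 : ℂ) * Complex.I)‖
      = 2 * ‖(i.1 : ℂ) + (i.2 : ℂ) * Complex.I‖ := by rw [norm_mul]; simp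
    _ ≤ 2 * (‖(i.1 : ℂ)‖ + ‖(i.2 : ℂ) * Complex.I‖) := by
        apply mul_le_mul_of_nonneg_left (norm_add_le _ _) (by norm_num)
    _ = 2 * ((i.1 : ℝ) + (i.2 : ℝ)) := by rw [norm_mul]; simp
    _ ≤ 4 * n := by linarith

theorem step_bound2 (hc : G.Connected) (Δ : ℕ)
    (hΔ : ∀ v, ∃ s : Finset V, s.card ≤ Δ ∧ ∀ w, G.Adj v w → w ∈ s) (C : ℝ) (hC : 0 ≤ C)
    (K : ℝ) (hK : 1 ≤ K)
    (hsq : ∀ (F : Finset V) (a b L : ℝ), 1 ≤ L →
      (∀ y ∈ F, a ≤ (f y).re ∧ (f y).re ≤ a + L ∧ b ≤ (f y).im ∧ (f y).im ≤ b + L) →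
      (F.card : ℝ) ≤ K * L ^ 2)
    (L : ℕ)
    (Q : ℝ) (hQ : Q = K * (4 + 4 * C) ^ 2 *
      ((5 * C + 3) * (2 * Real.sqrt (2 * (3 * C + 1) * (1 + C)) + 2 * C + 2))
      * (Δ + 1) ^ L)
    (m : ℕ) (n : ℕ) (hn : 1 ≤ n) (hm : 4 * Q * n ≤ m) (hm0 : 0 < m)
    (t : ℕ → V) (x : ℕ × ℕ → V)
    (hx : ∀ i ∈ range n ×ˢ range n, ‖f (x i) - pt 2 i‖ ≤ C)
    (r : ℕ) (hr1 : 1 ≤ r) (hr : r ≤ n)
    (hd : ∀ j < m, ∀ i ∈ range n ×ˢ range n,
      (r : ℝ) - 2 * C - 1 ≤ Ac (dir m j) (f (pos G (t j) r (x i)) - f (x i)))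
    (hnorm : ∀ j < m, ∀ i ∈ range n ×ˢ range n, ‖f (pos G (t j) r (x i)) - f (x i)‖ ≤ r + C)
    (hone : ∀ j < m, ∀ i ∈ range n ×ˢ range n,
      1 ≤ ‖f (pos G (t j) L (pos G (t j) r (x i))) - f (pos G (t j) r (x i))‖) :
    (1 / (128 * Q ^ 2)) / r * (m * (n : ℝ) ^ 2 / 2) ≤
      ∑ j ∈ range m, ∑ i ∈ range n ×ˢ range n,
        mc G f L (dir m j) (t j) (pos G (t j) r (x i)) := by
  classical
  set I := range n ×ˢ range n with hI
  have hIcard : (I.card : ℝ) = (n : ℝ) ^ 2 := by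
    rw [hI, Finset.card_product, Finset.card_range]
    push_cast
    ring
  have hQ0 : 0 < Q := by
    rw [hQ]
    have := Real.sqrt_nonneg (2 * (3 * C + 1) * (1 + C))
    positivity
  have hr0 : (1 : ℝ) ≤ r := by exact_mod_cast hr1
  have hn0 : (1 : ℝ) ≤ n := by exact_mod_cast hn
  set η := (1 / (128 * Q ^ 2)) / (r : ℝ) with hηdef
  have hη : 0 ≤ η := by positivity
  set Y := (range m ×ˢ I).image (fun p => pos G (t p.1) r (x p.2)) with hYdef
  have hY : ∀ j < m, ∀ i ∈ I, pos G (t j) r (x i) ∈ Y := by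
    intro j hj i hi
    rw [hYdef]
    exact Finset.mem_image.mpr ⟨(j, i), Finset.mem_product.mpr ⟨Finset.mem_range.mpr hj, hi⟩, rfl⟩
  have hYc : (Y.card : ℝ) ≤ K * (4 * n + 4 * C) ^ 2 := by
    apply hsq Y (-(2 * C + n)) (-(2 * C + n)) (4 * n + 4 * C) (by linarith)
    intro y hy
    rw [hYdef, Finset.mem_image] at hy
    obtain ⟨p, hp, rfl⟩ := hy
    rw [Finset.mem_product] at hp
    have hp1 := Finset.mem_range.mp hp.1
    have hp2 := hp.2
    rw [hI, Finset.mem_product, Finset.mem_range, Finset.mem_range] at hp2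
    obtain ⟨⟨a1, a2⟩, a3, a4⟩ := pos_square2 G f C hC (t p.1) (x p.2) n r hr p.2 hp2
      (hx p.2 hp.2) (hnorm p.1 hp1 p.2 hp.2)
    exact ⟨a1, a2, a3, a4⟩
  have hYc2 : (Y.card : ℝ) ≤ K * (4 + 4 * C) ^ 2 * (n : ℝ) ^ 2 := by
    refine le_trans hYc ?_
    have h1 : 4 * (n : ℝ) + 4 * C ≤ (4 + 4 * C) * n := by nlinarith
    have h2 : (4 * (n : ℝ) + 4 * C) ^ 2 ≤ ((4 + 4 * C) * n) ^ 2 := by
      apply pow_le_pow_left₀ (by positivity) h1
    calc K * (4 * (n : ℝ) + 4 * C) ^ 2 ≤ K * ((4 + 4 * C) * n) ^ 2 :=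
          mul_le_mul_of_nonneg_left h2 (by linarith)
      _ = K * (4 + 4 * C) ^ 2 * (n : ℝ) ^ 2 := by ring
  have hbad := bad_bound2 G f hc Δ hΔ C hC L m hm0 t x I r hx hd hnorm hone Y hY η hη
  have hsr : 1 ≤ Real.sqrt r := by
    rw [show (1:ℝ) = Real.sqrt 1 from (Real.sqrt_one).symm]
    exact Real.sqrt_le_sqrt hr0
  have hB : (5 * C + 3) * (2 * Real.sqrt (2 * (3 * C + 1) * (r + C)) + 2 * C + 2) ≤
      ((5 * C + 3) * (2 * Real.sqrt (2 * (3 * C + 1) * (1 + C)) + 2 * C + 2)) * Real.sqrt r := by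
    have h0 : Real.sqrt (2 * (3 * C + 1) * (r + C)) ≤
        Real.sqrt (2 * (3 * C + 1) * (1 + C)) * Real.sqrt r := by
      rw [← Real.sqrt_mul (by positivity)]
      apply Real.sqrt_le_sqrt
      have : (r : ℝ) + C ≤ (1 + C) * r := by nlinarith
      calc 2 * (3 * C + 1) * ((r : ℝ) + C) ≤ 2 * (3 * C + 1) * ((1 + C) * r) :=
            mul_le_mul_of_nonneg_left this (by positivity)
        _ = _ := by ring
    have h1 : 2 * Real.sqrt (2 * (3 * C + 1) * (r + C)) + 2 * C + 2 ≤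
        (2 * Real.sqrt (2 * (3 * C + 1) * (1 + C)) + 2 * C + 2) * Real.sqrt r := by nlinarith
    calc (5 * C + 3) * (2 * Real.sqrt (2 * (3 * C + 1) * (r + C)) + 2 * C + 2)
        ≤ (5 * C + 3) * ((2 * Real.sqrt (2 * (3 * C + 1) * (1 + C)) + 2 * C + 2) * Real.sqrt r) :=
          mul_le_mul_of_nonneg_left h1 (by linarith)
      _ = _ := by ring
  have hsη : Real.sqrt (2 * η) * Real.sqrt r = 1 / (8 * Q) := by
    rw [← Real.sqrt_mul (by positivity)]
    have : 2 * η * r = (1 / (8 * Q)) ^ 2 := by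
      rw [hηdef]
      field_simp
      norm_num
    rw [this]
    exact Real.sqrt_sq (by positivity)
  have hsn : Real.sqrt r ≤ n := by
    rw [Real.sqrt_le_left (by linarith)]
    have : (r : ℝ) ≤ n := by exact_mod_cast hr
    nlinarith
  have hbad2 : ∑ j ∈ range m,
      ((I.filter (fun i => mc G f L (dir m j) (t j) (pos G (t j) r (x i)) ≤ η)).card : ℝ)
      ≤ m * (n : ℝ) ^ 2 / 2 := by
    refine le_trans hbad ?_
    have hD0 : (0 : ℝ) ≤ (Δ + 1) ^ L * (2 * Real.sqrt (2 * η) * m + 1) := by positivity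
    have hB0 : 0 ≤ (5 * C + 3) * (2 * Real.sqrt (2 * (3 * C + 1) * (r + C)) + 2 * C + 2) := by
      positivity
    calc (Y.card : ℝ) * (((5 * C + 3) * (2 * Real.sqrt (2 * (3 * C + 1) * (r + C)) + 2 * C + 2)) *
        ((Δ + 1) ^ L * (2 * Real.sqrt (2 * η) * m + 1)))
        ≤ (K * (4 + 4 * C) ^ 2 * (n : ℝ) ^ 2) *
          ((((5 * C + 3) * (2 * Real.sqrt (2 * (3 * C + 1) * (1 + C)) + 2 * C + 2)) * Real.sqrt r) *
        ((Δ + 1) ^ L * (2 * Real.sqrt (2 * η) * m + 1))) := by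
          apply mul_le_mul hYc2 _ (by positivity) (by positivity)
          exact mul_le_mul_of_nonneg_right hB hD0
      _ = (n : ℝ) ^ 2 * (Q * (2 * (Real.sqrt (2 * η) * Real.sqrt r) * m + Real.sqrt r)) := by
          rw [hQ]; ring
      _ = (n : ℝ) ^ 2 * (m / 4 + Q * Real.sqrt r) := by
          rw [hsη]; field_simp; ring
      _ ≤ (n : ℝ) ^ 2 * (m / 4 + m / 4) := by
          apply mul_le_mul_of_nonneg_left _ (by positivity)
          nlinarith
      _ = m * (n : ℝ) ^ 2 / 2 := by ring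
  have hlower : ∀ j ∈ range m,
      η * ((I.card : ℝ) -
        ((I.filter (fun i => mc G f L (dir m j) (t j) (pos G (t j) r (x i)) ≤ η)).card : ℝ)) ≤
      ∑ i ∈ I, mc G f L (dir m j) (t j) (pos G (t j) r (x i)) := by
    intro j _
    have h1 : (I.card : ℝ) =
        ((I.filter (fun i => mc G f L (dir m j) (t j) (pos G (t j) r (x i)) ≤ η)).card : ℝ) +
        ((I.filter (fun i => ¬ mc G f L (dir m j) (t j) (pos G (t j) r (x i)) ≤ η)).card : ℝ) := by
      have := Finset.card_filter_add_card_filter_not (s := I)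
        (fun i => mc G f L (dir m j) (t j) (pos G (t j) r (x i)) ≤ η)
      exact_mod_cast this.symm
    rw [h1, add_sub_cancel_left]
    calc η * ((I.filter (fun i => ¬ mc G f L (dir m j) (t j) (pos G (t j) r (x i)) ≤ η)).card : ℝ)
        = ∑ i ∈ I.filter (fun i => ¬ mc G f L (dir m j) (t j) (pos G (t j) r (x i)) ≤ η), η := by
          rw [Finset.sum_const, nsmul_eq_mul, mul_comm]
      _ ≤ ∑ i ∈ I.filter (fun i => ¬ mc G f L (dir m j) (t j) (pos G (t j) r (x i)) ≤ η),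
          mc G f L (dir m j) (t j) (pos G (t j) r (x i)) := by
          apply Finset.sum_le_sum
          intro i hi
          rw [Finset.mem_filter, not_le] at hi
          exact hi.2.le
      _ ≤ ∑ i ∈ I, mc G f L (dir m j) (t j) (pos G (t j) r (x i)) := by
          apply Finset.sum_le_sum_of_subset_of_nonneg (Finset.filter_subset _ _)
          intro i _ _
          exact mc_nonneg G f L _ (dir_norm m j) _ _
  calc η * (m * (n : ℝ) ^ 2 / 2)
      ≤ η * (m * (n : ℝ) ^ 2 - ∑ j ∈ range m,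
      ((I.filter (fun i => mc G f L (dir m j) (t j) (pos G (t j) r (x i)) ≤ η)).card : ℝ)) := by
        apply mul_le_mul_of_nonneg_left _ hη
        linarith
    _ = ∑ j ∈ range m, η * ((I.card : ℝ) -
        ((I.filter (fun i => mc G f L (dir m j) (t j) (pos G (t j) r (x i)) ≤ η)).card : ℝ)) := by
        rw [← Finset.mul_sum, Finset.sum_sub_distrib, Finset.sum_const, nsmul_eq_mul,
          Finset.card_range, hIcard]
    _ ≤ _ := Finset.sum_le_sum hlower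

theorem main2_C (hc : G.Connected) (Δ : ℕ)
    (hΔ : ∀ v, ∃ s : Finset V, s.card ≤ Δ ∧ ∀ w, G.Adj v w → w ∈ s) (C : ℝ) (hC : 0 ≤ C)
    (hlow : ∀ x y, ‖f x - f y‖ ≤ (G.dist x y : ℝ) + C)
    (hup : ∀ x y, (G.dist x y : ℝ) ≤ ‖f x - f y‖ + C)
    (hnet : ∀ p : ℂ, ∃ x, ‖f x - p‖ ≤ C) :
    ∃ (c : ℝ) (L : ℕ), 0 < c ∧ ∀ (N : ℕ) (M : ℝ),
      (∀ p : ℕ → V, (∀ i < N + 1 + L, G.Adj (p i) (p (i + 1))) →
        G.dist (p 0) (p (N + 1 + L)) = N + 1 + L →
        ∑ i ∈ range (N + 1 + L), ‖f (p (i + 1)) - f (p i)‖ ≤ ((N + 1 + L : ℕ) : ℝ) + M) →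
      c * ∑ r ∈ range N, 1 / ((r : ℝ) + 1) ≤ M + 2 * C + 1 := by
  classical
  obtain ⟨K, hK, hsq⟩ := square_bound G Δ hΔ hc f C hup
  obtain ⟨L, hL⟩ : ∃ L : ℕ, C + 1 ≤ L := exists_nat_ge _
  obtain ⟨Q, hQ⟩ : ∃ Q : ℝ, Q = K * (4 + 4 * C) ^ 2 *
      ((5 * C + 3) * (2 * Real.sqrt (2 * (3 * C + 1) * (1 + C)) + 2 * C + 2))
      * (Δ + 1) ^ L := ⟨_, rfl⟩
  have hQ0 : 0 < Q := by
    rw [hQ]
    have := Real.sqrt_nonneg (2 * (3 * C + 1) * (1 + C))
    positivity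
  set c0 := 1 / (128 * Q ^ 2) with hc0
  have hc00 : 0 < c0 := by positivity
  have hL0 : (0 : ℝ) < L := by linarith
  refine ⟨c0 / (2 * L), L, by positivity, ?_⟩
  intro N M hM
  set C2 : ℝ := L * (M + 2 * C + 1) with hC2
  set n := N + 1 with hn
  have hn1 : 1 ≤ n := by omega
  have hn0 : (1 : ℝ) ≤ n := by exact_mod_cast hn1
  obtain ⟨m, hm⟩ : ∃ m : ℕ, 4 * Q * n ≤ m := exists_nat_ge _
  have hm0 : 0 < m := by
    have : (0 : ℝ) < m := lt_of_lt_of_le (by positivity) hm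
    exact_mod_cast this
  set P : ℝ := 4 * n + 2 * C with hP
  have hP0 : 0 ≤ P := by positivity
  set R : ℝ := P ^ 2 + P + n + L + C with hR
  choose g hg using hnet
  let t : ℕ → V := fun j => g ((R : ℂ) * dir m j)
  let x : ℕ × ℕ → V := fun i => g (pt 2 i)
  have hx : ∀ i ∈ range n ×ˢ range n, ‖f (x i) - pt 2 i‖ ≤ C := fun i _ => hg _
  have hgeom : ∀ j < m, ∀ i ∈ range n ×ˢ range n,
      P ^ 2 + n + L + C ≤ Ac (dir m j) (f (t j) - f (x i)) ∧
      Bc (dir m j) (f (t j) - f (x i)) ^ 2 ≤ P ^ 2 := by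
    intro j _ i hi
    rw [Finset.mem_product, Finset.mem_range, Finset.mem_range] at hi
    have hu := dir_norm m j
    have h1 : ‖f (t j) - (R : ℂ) * dir m j‖ ≤ C := hg _
    have h2 : ‖f (x i) - pt 2 i‖ ≤ C := hg _
    have h3 := norm_pt2 n i hi
    have h4 : ‖f (x i)‖ ≤ C + 4 * n := by
      calc ‖f (x i)‖ = ‖(f (x i) - pt 2 i) + pt 2 i‖ := by congr 1; ring
        _ ≤ ‖f (x i) - pt 2 i‖ + ‖pt 2 i‖ := norm_add_le _ _
        _ ≤ C + 4 * n := by linarith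
    have hA : Ac (dir m j) (f (t j) - f (x i)) = R + Ac (dir m j) (f (t j) - (R : ℂ) * dir m j)
        - Ac (dir m j) (f (x i)) := by
      rw [Ac_sub, Ac_sub, Ac_self _ hu]; ring
    have hB : Bc (dir m j) (f (t j) - f (x i)) = Bc (dir m j) (f (t j) - (R : ℂ) * dir m j)
        - Bc (dir m j) (f (x i)) := by
      rw [Bc_sub, Bc_sub, Bc_self _ hu]; ring
    have a1 := abs_le.mp (le_trans (abs_Ac_le _ (f (t j) - (R : ℂ) * dir m j) hu) h1)
    have a2 := abs_le.mp (le_trans (abs_Ac_le _ (f (x i)) hu) h4)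
    have b1 := abs_le.mp (le_trans (abs_Bc_le _ (f (t j) - (R : ℂ) * dir m j) hu) h1)
    have b2 := abs_le.mp (le_trans (abs_Bc_le _ (f (x i)) hu) h4)
    constructor
    · rw [hA]
      have := a1.1
      have := a2.2
      linarith
    · have hB2 : |Bc (dir m j) (f (t j) - f (x i))| ≤ P := by
        rw [hB, abs_le]
        constructor
        · linarith [b1.1, b2.2]
        · linarith [b1.2, b2.1]
      rw [← sq_abs]
      exact pow_le_pow_left₀ (abs_nonneg _) hB2 2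
  have hfar : ∀ j < m, ∀ i ∈ range n ×ˢ range n, n + L ≤ G.dist (x i) (t j) := by
    intro j hj i hi
    obtain ⟨h1, _⟩ := hgeom j hj i hi
    have h2 := le_trans (le_abs_self _) (abs_Ac_le (dir m j) (f (t j) - f (x i)) (dir_norm m j))
    have h3 := hlow (x i) (t j)
    rw [norm_sub_rev] at h3
    have h4 : ((n + L : ℕ) : ℝ) ≤ (G.dist (x i) (t j) : ℝ) := by
      push_cast
      nlinarith [sq_nonneg P]
    exact_mod_cast h4
  have hdisp : ∀ r ≤ n + L, ∀ j < m, ∀ i ∈ range n ×ˢ range n,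
      (r : ℝ) - 2 * C - 1 ≤ Ac (dir m j) (f (pos G (t j) r (x i)) - f (x i)) := by
    intro r hr j hj i hi
    obtain ⟨h1, h2⟩ := hgeom j hj i hi
    apply disp_lower G f hc C hlow hup (dir m j) (dir_norm m j) (t j) (x i) r
      (le_trans hr (hfar j hj i hi))
    · nlinarith [sq_nonneg P, (Nat.cast_nonneg L : (0:ℝ) ≤ L)]
    · nlinarith [sq_nonneg P, (Nat.cast_nonneg L : (0:ℝ) ≤ L)]
  have hcost : ∀ j < m, ∀ i ∈ range n ×ˢ range n,
      ∑ k ∈ range n, mc G f L (dir m j) (t j) (pos G (t j) k (x i)) ≤ C2 := by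
    intro j hj i hi
    refine le_trans (sum_mc G f L (dir m j) (dir_norm m j) (t j) (x i) n) ?_
    rw [hC2]
    apply mul_le_mul_of_nonneg_left _ (Nat.cast_nonneg L)
    rw [sum_cost1]
    have h1 := hM (fun k => pos G (t j) k (x i))
      (fun k hk => pos_adj G hc (t j) (x i) k (lt_of_lt_of_le hk (hfar j hj i hi)))
      (by
        simp only [pos_zero]
        exact dist_pos G hc (t j) (x i) (n + L) (hfar j hj i hi))
    have h2 := hdisp (n + L) (le_refl _) j hj i hi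
    linarith
  have hone : ∀ r ≤ n, ∀ j < m, ∀ i ∈ range n ×ˢ range n,
      1 ≤ ‖f (pos G (t j) L (pos G (t j) r (x i))) - f (pos G (t j) r (x i))‖ := by
    intro r hr j hj i hi
    have h1 := pos_dist G hc (t j) (x i) r (le_trans (by omega) (hfar j hj i hi))
    have h2 := hfar j hj i hi
    have h3 := dist_pos G hc (t j) (pos G (t j) r (x i)) L (by omega)
    have h4 := hup (pos G (t j) r (x i)) (pos G (t j) L (pos G (t j) r (x i)))
    rw [h3, norm_sub_rev] at h4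
    linarith
  have hstep := fun r hr1 (hr : r ≤ n) => step_bound2 G f hc Δ hΔ C hC K hK hsq L Q hQ m n hn1 hm
    hm0 t x hx r hr1 hr (hdisp r (by omega))
    (fun j _ i _ => disp_norm G f hc C hlow (t j) (x i) r) (hone r hr)
  have htotal : ∑ j ∈ range m, ∑ i ∈ range n ×ˢ range n,
      ∑ k ∈ range n, mc G f L (dir m j) (t j) (pos G (t j) k (x i)) ≤ m * (n : ℝ) ^ 2 * C2 := by
    calc ∑ j ∈ range m, ∑ i ∈ range n ×ˢ range n,
      ∑ k ∈ range n, mc G f L (dir m j) (t j) (pos G (t j) k (x i))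
        ≤ ∑ j ∈ range m, ∑ i ∈ range n ×ˢ range n, C2 := by
          apply Finset.sum_le_sum
          intro j hj
          apply Finset.sum_le_sum
          intro i hi
          exact hcost j (Finset.mem_range.mp hj) i hi
      _ = m * (n : ℝ) ^ 2 * C2 := by
          rw [Finset.sum_const, Finset.sum_const, Finset.card_product, Finset.card_range,
            Finset.card_range, nsmul_eq_mul, nsmul_eq_mul]
          push_cast
          ring
  have hswap : ∑ r ∈ range N, ∑ j ∈ range m, ∑ i ∈ range n ×ˢ range n,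
      mc G f L (dir m j) (t j) (pos G (t j) (r + 1) (x i)) ≤
      ∑ j ∈ range m, ∑ i ∈ range n ×ˢ range n,
      ∑ k ∈ range n, mc G f L (dir m j) (t j) (pos G (t j) k (x i)) := by
    rw [Finset.sum_comm]
    apply Finset.sum_le_sum
    intro j _
    rw [Finset.sum_comm]
    apply Finset.sum_le_sum
    intro i _
    rw [hn, Finset.sum_range_succ']
    have := mc_nonneg G f L (dir m j) (dir_norm m j) (t j) (pos G (t j) 0 (x i))
    linarith
  have hfin : ∑ r ∈ range N, c0 / ((r + 1 : ℕ) : ℝ) * (m * (n : ℝ) ^ 2 / 2) ≤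
      m * (n : ℝ) ^ 2 * C2 := by
    refine le_trans ?_ (le_trans hswap htotal)
    apply Finset.sum_le_sum
    intro r hr
    rw [Finset.mem_range] at hr
    exact hstep (r + 1) (by omega) (by omega)
  have hW : (0 : ℝ) < m * (n : ℝ) ^ 2 := by
    have : (0 : ℝ) < m := by exact_mod_cast hm0
    positivity
  rw [← Finset.sum_mul] at hfin
  have h1 : ∑ r ∈ range N, c0 / ((r + 1 : ℕ) : ℝ) = c0 * ∑ r ∈ range N, 1 / ((r : ℝ) + 1) := by
    rw [Finset.mul_sum]
    apply Finset.sum_congr rfl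
    intro r _
    push_cast
    ring
  rw [h1] at hfin
  have h2 : c0 * ∑ r ∈ range N, 1 / ((r : ℝ) + 1) ≤ 2 * C2 := by
    by_contra hcon
    rw [not_le] at hcon
    nlinarith
  rw [div_mul_eq_mul_div, div_le_iff₀ (by positivity)]
  rw [hC2] at h2
  linarith

end Pool.Agent.RN36
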