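import Mathlib

open Finset

namespace Pool.Agent.RN36

noncomputable def Ac (u p : ℂ) : ℝ := (p * (starRingEnd ℂ) u).re
noncomputable def Bc (u p : ℂ) : ℝ := (p * (starRingEnd ℂ) u).im

/-- direction number j of m -/
noncomputable def dir (m j : ℕ) : ℂ :=
  (1 + (((j : ℝ) / (m : ℝ) : ℝ) : ℂ) * Complex.I) / (1 - (((j : ℝ) / (m : ℝ) : ℝ) : ℂ) * Complex.I)

/-- point of the grid -/
noncomputable def pt (h : ℝ) (i : ℕ × ℕ) : ℂ := (h : ℂ) * ((i.1 : ℂ) + (i.2 : ℂ) * Complex.I)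

end Pool.Agent.RN36
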