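import Pool.Agent.RN36.Sig

open Finset

namespace Pool.Agent.RN36

theorem Ac_sub (u p q : ℂ) : Ac u (p - q) = Ac u p - Ac u q := by
  simp [Ac, sub_mul]

theorem Ac_add (u p q : ℂ) : Ac u (p + q) = Ac u p + Ac u q := by
  simp [Ac, add_mul]

theorem Bc_sub (u p q : ℂ) : Bc u (p - q) = Bc u p - Bc u q := by
  simp [Bc, sub_mul]

theorem Bc_add (u p q : ℂ) : Bc u (p + q) = Bc u p + Bc u q := by
  simp [Bc, add_mul]

theorem sq_sum (u p : ℂ) (hu : ‖u‖ = 1) : Ac u p ^ 2 + Bc u p ^ 2 = ‖p‖ ^ 2 := by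
  have h : ‖p * (starRingEnd ℂ) u‖ ^ 2 = ‖p‖ ^ 2 := by
    rw [norm_mul, RCLike.norm_conj, hu, mul_one]
  rw [← h, Complex.sq_norm, Complex.normSq_apply]
  simp only [Ac, Bc]
  ring

theorem abs_Ac_le (u p : ℂ) (hu : ‖u‖ = 1) : |Ac u p| ≤ ‖p‖ := by
  have h := sq_sum u p hu
  apply abs_le_of_sq_le_sq _ (norm_nonneg p)
  nlinarith [sq_nonneg (Bc u p)]

theorem abs_Bc_le (u p : ℂ) (hu : ‖u‖ = 1) : |Bc u p| ≤ ‖p‖ := by
  have h := sq_sum u p hu
  apply abs_le_of_sq_le_sq _ (norm_nonneg p)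
  nlinarith [sq_nonneg (Ac u p)]

theorem Ac_self (u : ℂ) (hu : ‖u‖ = 1) (R : ℝ) : Ac u ((R : ℂ) * u) = R := by
  have h : u * (starRingEnd ℂ) u = 1 := by
    rw [Complex.mul_conj, Complex.normSq_eq_norm_sq, hu]; simp
  simp only [Ac]
  rw [mul_assoc, h]; simp

theorem Bc_self (u : ℂ) (hu : ‖u‖ = 1) (R : ℝ) : Bc u ((R : ℂ) * u) = 0 := by
  have h : u * (starRingEnd ℂ) u = 1 := by
    rw [Complex.mul_conj, Complex.normSq_eq_norm_sq, hu]; simp
  simp only [Bc]
  rw [mul_assoc, h]; simp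

section walk
variable {V : Type*} (G : SimpleGraph V)

theorem exists_next (hc : G.Connected) (t x : V) (h : x ≠ t) :
    ∃ z, G.Adj x z ∧ G.dist z t + 1 = G.dist x t := by
  obtain ⟨p, hp⟩ := hc.exists_walk_length_eq_dist x t
  cases p with
  | nil => exact absurd rfl h
  | cons hadj q =>
    rename_i z
    refine ⟨z, hadj, ?_⟩
    have h1 : G.dist z t ≤ q.length := SimpleGraph.dist_le q
    have h2 : G.dist x t ≤ G.dist x z + G.dist z t := hc.dist_triangle
    have h3 : G.dist x z = 1 := SimpleGraph.dist_eq_one_iff_adj.mpr hadj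
    simp at hp
    omega

open Classical in
noncomputable def nxt (t x : V) : V :=
  if h : ∃ z, G.Adj x z ∧ G.dist z t + 1 = G.dist x t then h.choose else x

theorem nxt_adj (t x : V) : G.Adj x (nxt G t x) ∨ nxt G t x = x := by
  unfold nxt
  split_ifs with h
  · exact Or.inl h.choose_spec.1
  · exact Or.inr rfl

theorem nxt_dist (hc : G.Connected) (t x : V) (h : x ≠ t) :
    G.dist (nxt G t x) t + 1 = G.dist x t := by
  have h0 := exists_next G hc t x h
  unfold nxt
  rw [dif_pos h0]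
  exact h0.choose_spec.2

noncomputable def pos (t : V) (r : ℕ) (x : V) : V := (nxt G t)^[r] x

theorem pos_zero (t x : V) : pos G t 0 x = x := rfl

theorem pos_succ (t : V) (r : ℕ) (x : V) : pos G t (r + 1) x = nxt G t (pos G t r x) := by
  unfold pos
  rw [Function.iterate_succ_apply']

theorem pos_dist (hc : G.Connected) (t x : V) (r : ℕ) (hr : r ≤ G.dist x t) :
    G.dist (pos G t r x) t + r = G.dist x t := by
  induction r with
  | zero => simp [pos_zero]
  | succ r ih =>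
    have h1 := ih (by omega)
    have h2 : pos G t r x ≠ t := by
      intro h
      rw [h] at h1
      simp at h1
      omega
    have h3 := nxt_dist G hc t (pos G t r x) h2
    rw [pos_succ]
    omega

variable (f : V → ℂ)

theorem nxt_norm (hlow : ∀ x y, ‖f x - f y‖ ≤ (G.dist x y : ℝ)) (t x : V) :
    ‖f (nxt G t x) - f x‖ ≤ 1 := by
  rcases nxt_adj G t x with h | h
  · have h1 := hlow (nxt G t x) x
    have h2 : G.dist (nxt G t x) x = 1 := SimpleGraph.dist_eq_one_iff_adj.mpr h.symm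
    rw [h2] at h1
    simpa using h1
  · rw [h]; simp

noncomputable def cost (u : ℂ) (t x : V) : ℝ := 1 - Ac u (f (nxt G t x) - f x)

theorem cost_nonneg (hlow : ∀ x y, ‖f x - f y‖ ≤ (G.dist x y : ℝ)) (u : ℂ) (hu : ‖u‖ = 1)
    (t x : V) : 0 ≤ cost G f u t x := by
  have h1 := abs_Ac_le u (f (nxt G t x) - f x) hu
  have h2 := nxt_norm G f hlow t x
  have h3 := le_abs_self (Ac u (f (nxt G t x) - f x))
  unfold cost
  linarith

theorem sum_cost (u : ℂ) (t x : V) (n : ℕ) :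
    ∑ r ∈ range n, cost G f u t (pos G t r x) = n - Ac u (f (pos G t n x) - f x) := by
  induction n with
  | zero => simp [pos_zero, Ac]
  | succ n ih =>
    rw [sum_range_succ, ih, pos_succ]
    unfold cost
    rw [Ac_sub, Ac_sub, Ac_sub]
    push_cast
    ring

theorem pos_norm (hlow : ∀ x y, ‖f x - f y‖ ≤ (G.dist x y : ℝ)) (t x : V) (r : ℕ) :
    ‖f (pos G t r x) - f x‖ ≤ r := by
  induction r with
  | zero => simp [pos_zero]
  | succ r ih =>
    rw [pos_succ]
    have h1 := nxt_norm G f hlow t (pos G t r x)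
    calc ‖f (nxt G t (pos G t r x)) - f x‖
        = ‖(f (nxt G t (pos G t r x)) - f (pos G t r x)) + (f (pos G t r x) - f x)‖ := by
          congr 1; ring
      _ ≤ ‖f (nxt G t (pos G t r x)) - f (pos G t r x)‖ + ‖f (pos G t r x) - f x‖ := norm_add_le _ _
      _ ≤ 1 + r := add_le_add h1 ih
      _ = ((r + 1 : ℕ) : ℝ) := by push_cast; ring

theorem total_cost (hc : G.Connected) (C : ℝ)
    (hlow : ∀ x y, ‖f x - f y‖ ≤ (G.dist x y : ℝ))
    (hup : ∀ x y, (G.dist x y : ℝ) ≤ ‖f x - f y‖ + C) (u : ℂ) (hu : ‖u‖ = 1) (t x : V) (n : ℕ)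
    (hn : (n : ℝ) ≤ Ac u (f t - f x)) (hB : Bc u (f t - f x) ^ 2 ≤ 2 * Ac u (f t - f x)) :
    ∑ r ∈ range n, cost G f u t (pos G t r x) ≤ C + 1 := by
  rw [sum_cost]
  have hA : 0 ≤ Ac u (f t - f x) := le_trans (Nat.cast_nonneg n) hn
  have h1 : ‖f t - f x‖ ≤ Ac u (f t - f x) + 1 := by
    have h := sq_sum u (f t - f x) hu
    apply le_of_sq_le_sq _ (by linarith)
    nlinarith
  have h0 : Ac u (f t - f x) ≤ ‖f t - f x‖ := le_trans (le_abs_self _) (abs_Ac_le u _ hu)
  have h2 : n ≤ G.dist x t := by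
    have h3 := hlow x t
    rw [norm_sub_rev] at h3
    have : (n : ℝ) ≤ (G.dist x t : ℝ) := by linarith
    exact_mod_cast this
  have h4 := pos_dist G hc t x n h2
  have h5 := hup x t
  have h6 := hlow (pos G t n x) t
  have h7 : (G.dist (pos G t n x) t : ℝ) + n = G.dist x t := by exact_mod_cast h4
  have h8 : Ac u (f t - f (pos G t n x)) ≤ ‖f (pos G t n x) - f t‖ := by
    rw [norm_sub_rev]
    exact le_trans (le_abs_self _) (abs_Ac_le u _ hu)
  rw [norm_sub_rev] at h5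
  rw [Ac_sub] at h8 h1 h0 ⊢
  linarith [Ac_sub u (f t) (f x), Ac_sub u (f t) (f (pos G t n x))]

end walk
end Pool.Agent.RN36
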