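import Pool.Agent.RN36.Walk

open Finset

namespace Pool.Agent.RN36

section walk
variable {V : Type*} (G : SimpleGraph V)

theorem pos_add (t : V) (r i : ℕ) (x : V) : pos G t i (pos G t r x) = pos G t (r + i) x := by
  unfold pos
  rw [← Function.iterate_add_apply, add_comm]

theorem dist_pos_le (hc : G.Connected) (t x : V) (i : ℕ) : G.dist x (pos G t i x) ≤ i := by
  induction i with
  | zero => simp [pos_zero]
  | succ i ih =>
    rw [pos_succ]
    have h1 : G.dist x (nxt G t (pos G t i x)) ≤
        G.dist x (pos G t i x) + G.dist (pos G t i x) (nxt G t (pos G t i x)) := hc.dist_triangle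
    have h2 : G.dist (pos G t i x) (nxt G t (pos G t i x)) ≤ 1 := by
      rcases nxt_adj G t (pos G t i x) with h | h
      · exact (SimpleGraph.dist_eq_one_iff_adj.mpr h).le
      · rw [h]; simp
    omega

theorem dist_pos (hc : G.Connected) (t x : V) (i : ℕ) (hi : i ≤ G.dist x t) :
    G.dist x (pos G t i x) = i := by
  have h1 := dist_pos_le G hc t x i
  have h2 := pos_dist G hc t x i hi
  have h3 : G.dist x t ≤ G.dist x (pos G t i x) + G.dist (pos G t i x) t := hc.dist_triangle
  omega

theorem pos_adj (hc : G.Connected) (t x : V) (i : ℕ) (hi : i < G.dist x t) :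
    G.Adj (pos G t i x) (pos G t (i + 1) x) := by
  rw [pos_succ]
  rcases nxt_adj G t (pos G t i x) with h | h
  · exact h
  · exfalso
    have h2 := pos_dist G hc t x i hi.le
    have h3 : pos G t i x ≠ t := by
      intro h4
      rw [h4] at h2
      simp at h2
      omega
    have h5 := nxt_dist G hc t _ h3
    rw [h] at h5
    omega

variable (f : V → ℂ)

noncomputable def cost1 (u : ℂ) (t x : V) : ℝ :=
  ‖f (nxt G t x) - f x‖ - Ac u (f (nxt G t x) - f x)

theorem cost1_nonneg (u : ℂ) (hu : ‖u‖ = 1) (t x : V) : 0 ≤ cost1 G f u t x := by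
  have h1 := abs_Ac_le u (f (nxt G t x) - f x) hu
  have h3 := le_abs_self (Ac u (f (nxt G t x) - f x))
  unfold cost1
  linarith

theorem sum_cost1 (u : ℂ) (t x : V) (n : ℕ) :
    ∑ r ∈ range n, cost1 G f u t (pos G t r x) =
      ∑ r ∈ range n, ‖f (pos G t (r + 1) x) - f (pos G t r x)‖ - Ac u (f (pos G t n x) - f x) := by
  induction n with
  | zero => simp [pos_zero, Ac]
  | succ n ih =>
    rw [sum_range_succ, ih, sum_range_succ, pos_succ]
    unfold cost1
    rw [Ac_sub, Ac_sub, Ac_sub]
    ring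

theorem norm_le_sum (t x : V) (n : ℕ) :
    ‖f (pos G t n x) - f x‖ ≤ ∑ r ∈ range n, ‖f (pos G t (r + 1) x) - f (pos G t r x)‖ := by
  induction n with
  | zero => simp [pos_zero]
  | succ n ih =>
    rw [sum_range_succ]
    calc ‖f (pos G t (n + 1) x) - f x‖
        = ‖(f (pos G t n x) - f x) + (f (pos G t (n + 1) x) - f (pos G t n x))‖ := by
          congr 1; ring
      _ ≤ ‖f (pos G t n x) - f x‖ + ‖f (pos G t (n + 1) x) - f (pos G t n x)‖ := norm_add_le _ _
      _ ≤ _ := by linarith

/-- macro cost -/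
noncomputable def mc (L : ℕ) (u : ℂ) (t y : V) : ℝ :=
  ‖f (pos G t L y) - f y‖ - Ac u (f (pos G t L y) - f y)

theorem mc_nonneg (L : ℕ) (u : ℂ) (hu : ‖u‖ = 1) (t y : V) : 0 ≤ mc G f L u t y := by
  have h1 := abs_Ac_le u (f (pos G t L y) - f y) hu
  have h3 := le_abs_self (Ac u (f (pos G t L y) - f y))
  unfold mc
  linarith

theorem mc_le (L : ℕ) (u : ℂ) (t y : V) :
    mc G f L u t y ≤ ∑ i ∈ range L, cost1 G f u t (pos G t i y) := by
  rw [sum_cost1]
  unfold mc
  have := norm_le_sum G f t y L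
  linarith

theorem sum_mc (L : ℕ) (u : ℂ) (hu : ‖u‖ = 1) (t x : V) (n : ℕ) :
    ∑ r ∈ range n, mc G f L u t (pos G t r x) ≤
      L * ∑ k ∈ range (n + L), cost1 G f u t (pos G t k x) := by
  calc ∑ r ∈ range n, mc G f L u t (pos G t r x)
      ≤ ∑ r ∈ range n, ∑ i ∈ range L, cost1 G f u t (pos G t (r + i) x) := by
        apply Finset.sum_le_sum
        intro r _
        refine le_trans (mc_le G f L u t _) ?_
        apply Finset.sum_le_sum
        intro i _
        rw [pos_add]
    _ = ∑ i ∈ range L, ∑ r ∈ range n, cost1 G f u t (pos G t (r + i) x) := Finset.sum_comm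
    _ ≤ ∑ i ∈ range L, ∑ k ∈ range (n + L), cost1 G f u t (pos G t k x) := by
        apply Finset.sum_le_sum
        intro i hi
        rw [Finset.mem_range] at hi
        have h1 : ∑ k ∈ range (i + n), cost1 G f u t (pos G t k x) =
            ∑ k ∈ range i, cost1 G f u t (pos G t k x) +
            ∑ r ∈ range n, cost1 G f u t (pos G t (i + r) x) := Finset.sum_range_add _ _ _
        have h2 : 0 ≤ ∑ k ∈ range i, cost1 G f u t (pos G t k x) :=
          Finset.sum_nonneg (fun k _ => cost1_nonneg G f u hu t _)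
        have h3 : ∑ k ∈ range (i + n), cost1 G f u t (pos G t k x) ≤
            ∑ k ∈ range (n + L), cost1 G f u t (pos G t k x) := by
          apply Finset.sum_le_sum_of_subset_of_nonneg
          · exact Finset.range_subset_range.mpr (by omega)
          · intro k _ _
            exact cost1_nonneg G f u hu t _
        have h4 : ∑ r ∈ range n, cost1 G f u t (pos G t (r + i) x) =
            ∑ r ∈ range n, cost1 G f u t (pos G t (i + r) x) := by
          apply Finset.sum_congr rfl
          intro r _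
          rw [add_comm]
        linarith
    _ = L * ∑ k ∈ range (n + L), cost1 G f u t (pos G t k x) := by
        rw [Finset.sum_const, Finset.card_range, nsmul_eq_mul]

theorem disp_lower (hc : G.Connected) (C : ℝ)
    (hlow : ∀ x y, ‖f x - f y‖ ≤ (G.dist x y : ℝ) + C)
    (hup : ∀ x y, (G.dist x y : ℝ) ≤ ‖f x - f y‖ + C) (u : ℂ) (hu : ‖u‖ = 1) (t x : V) (r : ℕ)
    (hn : r ≤ G.dist x t) (hA : 0 ≤ Ac u (f t - f x))
    (hB : Bc u (f t - f x) ^ 2 ≤ 2 * Ac u (f t - f x)) :
    (r : ℝ) - 2 * C - 1 ≤ Ac u (f (pos G t r x) - f x) := by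
  have h1 : ‖f t - f x‖ ≤ Ac u (f t - f x) + 1 := by
    have h := sq_sum u (f t - f x) hu
    apply le_of_sq_le_sq _ (by linarith)
    nlinarith
  have h4 := pos_dist G hc t x r hn
  have h5 := hup x t
  have h6 := hlow (pos G t r x) t
  have h7 : (G.dist (pos G t r x) t : ℝ) + r = G.dist x t := by exact_mod_cast h4
  have h8 : Ac u (f t - f (pos G t r x)) ≤ ‖f (pos G t r x) - f t‖ := by
    rw [norm_sub_rev]
    exact le_trans (le_abs_self _) (abs_Ac_le u _ hu)
  rw [norm_sub_rev] at h5
  rw [Ac_sub] at h8 h1 ⊢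
  linarith

theorem disp_norm (hc : G.Connected) (C : ℝ)
    (hlow : ∀ x y, ‖f x - f y‖ ≤ (G.dist x y : ℝ) + C) (t x : V) (r : ℕ) :
    ‖f (pos G t r x) - f x‖ ≤ r + C := by
  have h1 := hlow x (pos G t r x)
  have h2 := dist_pos_le G hc t x r
  have h3 : (G.dist x (pos G t r x) : ℝ) ≤ r := by exact_mod_cast h2
  rw [norm_sub_rev] at h1
  linarith

end walk
end Pool.Agent.RN36
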